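import Pool.Agent.Y192.FA.GDefs
import Pool.Agent.Y192.KC.ZK
import Pool.Agent.Y641.KZ.Alg

/-!
Maps from curves to the covers are admissible points of the torus.
-/

set_option autoImplicit false

namespace Pool.Agent.Y180.FG

open MvPolynomial FF Pool.Agent.W603.LV Pool.Agent.W603.PV Pool.Agent.Y192.OG Pool.Agent.Y192.FA
open Pool.Agent.Y192.KC (Cov ZCov ZField ZRed Poly WH PseudoGm PseudoRational laur md)
open Pool.Agent.Y641.KZ (form form_ep sb aeval_sb wh_sb)

variable {n r : ℕ}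

/-- the value of a form at a point of the torus, in homogeneous coordinates -/
theorem ep_form {M : Type} [Field M] [Algebra ℂ M] (x : Fin n → Mˣ) (u : Fin (n + 1) → M) (m : ℕ)
    (h0 : u 0 ≠ 0) (hx : ∀ i : Fin n, (x i : M) = (u i.succ / u 0) ^ m)
    {f : MvPolynomial (Fin (n + 1)) ℂ} {k : ℕ} (hf : f.IsHomogeneous k) :
    ep x (laur f) = aeval (fun i => u i ^ m) f / u 0 ^ (m * k) := by
  rw [Pool.Agent.Y192.KC.ep_laur]
  have h1 : (Fin.cons (α := fun _ => M) 1 (fun i => (x i : M))) =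
      fun i => (u 0 ^ m)⁻¹ * u i ^ m := by
    funext i
    refine Fin.cases ?_ (fun i => ?_) i
    · rw [Fin.cons_zero, inv_mul_cancel₀ (pow_ne_zero _ h0)]
    · rw [Fin.cons_succ, hx, div_pow, div_eq_mul_inv, mul_comm]
  rw [h1, Pool.Agent.Y192.KC.aeval_homog hf, inv_pow, ← pow_mul, div_eq_mul_inv, mul_comm]

/-- the equations of the cover for the coordinates of a map -/
theorem map_eqs {X : ZCov n r} {m : ℕ} (he : ∀ j, X.e j ∣ m) {L : Type} [Field L]
    [Algebra ℂ L] {t : Fin (n + 1) → L} {w : Fin r → L} (hF : ZField X m L t w)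
    {M : Type} [Field M] [Algebra ℂ M] {S : Finset (Place ℂ M)} {u : Fin (n + 1) → M}
    {v : Fin r → M} (h : MapTo X.toCov m t w S u v) :
    (∀ (f : MvPolynomial (Fin (n + 1)) ℂ) (k : ℕ), f.IsHomogeneous k → f ∈ X.I →
      aeval (fun i => u i ^ m) f = 0) ∧
    ∀ j, v j ^ X.e j = aeval (fun i => u i ^ m) (X.F j) := by
  refine ⟨fun f k hf hfI => ?_, fun j => ?_⟩
  · have h3 := h.mem (sb r m f) (m * k) (wh_sb X.toCov m hf)
      (by rw [aeval_sb]; exact (hF.van f k hf).mpr hfI)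
    rwa [aeval_sb] at h3
  · have hw : X.e j * X.wt m j = m * X.d j := by
      unfold Cov.wt
      exact Nat.mul_div_cancel' ((he j).mul_right _)
    have h4 : WH X.toCov m ((MvPolynomial.X (Sum.inr j) : Poly n r) ^ X.e j) (m * X.d j) := by
      have := (isWeightedHomogeneous_X ℂ (Sum.elim (fun _ => 1) (X.wt m) : Fin (n + 1) ⊕ Fin r → ℕ)
        (Sum.inr j)).pow (X.e j)
      rw [Sum.elim_inr, smul_eq_mul, hw] at this
      exact this
    have h5 : WH X.toCov m ((MvPolynomial.X (Sum.inr j) : Poly n r) ^ X.e j - sb r m (X.F j))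
        (m * X.d j) := by
      have h6 := wh_sb (r := r) X.toCov m (X.hF j)
      unfold WH at h4 h6 ⊢
      rw [← mem_weightedHomogeneousSubmodule] at h4 h6 ⊢
      exact Submodule.sub_mem _ h4 h6
    have h3 := h.mem _ _ h5 (by
      rw [map_sub, map_pow, aeval_X, Sum.elim_inr, aeval_sb, hF.eqn j, sub_self])
    rw [map_sub, map_pow, aeval_X, Sum.elim_inr, aeval_sb, sub_eq_zero] at h3
    exact h3

theorem t_fadm : St_fadm := by
  intro n r X m hm he L _ _ t w hF K _ _ x hx c S u v hu hM hcx hS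
  have h0 : u 0 ≠ 0 := hu 0
  obtain ⟨hI, hE⟩ := map_eqs he hF hM
  have hep : ∀ {f : MvPolynomial (Fin (n + 1)) ℂ} {k : ℕ}, f.IsHomogeneous k →
      ep c.x (laur f) = aeval (fun i => u i ^ m) f / u 0 ^ (m * k) :=
    fun hf => ep_form c.x u m h0 hcx hf
  have hord : ∀ (f : MvPolynomial (Fin (n + 1)) ℂ) (k : ℕ), f.IsHomogeneous k →
      c.ev (laur f) ≠ 0 → ∀ z : c.P, c.ord z (c.ev (laur f)) =
        ((z.ord (aeval (fun i => u i ^ m) f) - (m * k : ℕ) * z.ord (u 0) : ℤ) : WithTop ℤ) := by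
    intro f k hf h z
    have h1 : ep c.x (laur f) ≠ 0 := fun h1 => h ((ev_eq_zero c _).mpr h1)
    rw [c.ord_of_ne h, coe_ev, hep hf]
    rw [hep hf] at h1
    have h2 : aeval (fun i => u i ^ m) f ≠ 0 := fun h2 => h1 (by rw [h2, zero_div])
    rw [z.ord_div h2 (pow_ne_zero _ h0), z.ord_pow]
  refine ⟨⟨fun i z _ => ?_, fun j => ?_⟩, fun g hg => ?_⟩
  · rw [hcx, z.ord_pow]
    exact Dvd.intro _ rfl
  · refine Fin.cases ?_ (fun j => ?_) j
    · intro h z hz
      have h1 : c.ord z (c.ev (X.FL 0)) = _ := hord X.G X.q X.hG h z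
      have h2 := hM.off z (fun h3 => hz (hS z h3))
      refine ⟨X.q * (pord z u - z.ord (u 0)), ?_⟩
      rw [h1, h2]
      have h5 : md m (X.eL 0) = m := if_pos rfl
      rw [h5]
      congr 1
      push_cast
      ring
    · intro h z hz
      have h1 : c.ord z (c.ev (X.FL j.succ)) = _ := hord (X.F j) (X.d j) (X.hF j) h z
      have hw : X.e j * X.wt m j = m * X.d j := by
        unfold Cov.wt
        exact Nat.mul_div_cancel' ((he j).mul_right _)
      refine ⟨z.ord (v j) - X.wt m j * z.ord (u 0), ?_⟩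
      rw [h1, ← hE j, z.ord_pow]
      have h5 : md m (X.eL j.succ) = X.e j := if_neg (X.he j).ne'
      rw [h5, ← hw]
      congr 1
      push_cast
      ring
  · obtain ⟨k, b, Q, hQ, hQl⟩ := form g
    have hQI : Q ∈ X.I := (hx Q k hQ).mp ((form_ep x hQl).mpr hg)
    rw [ev_eq_zero]
    apply (form_ep c.x hQl).mp
    rw [hep hQ, hI Q k hQ hQI, zero_div]

end Pool.Agent.Y180.FG
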